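import Pool.Agent.Work.MP_71c844_lc.RG.Stmts

/-!
Block RG, item Ch: the minimal members of a chain of families.
-/

namespace Pool.Agent.RG

open Finset
open Pool.Agent.NegLim (Tn miss Closed lowSets minMembers trim Dich)

namespace Chx

variable {E : Type} [Fintype E] [DecidableEq E]

theorem mem_link (𝒱 : Finset (Finset E)) (S : Finset E) (i : ℕ) (C : Finset E) :
    C ∈ link 𝒱 S i ↔ C.card = i ∧ Disjoint C S ∧ S ∪ C ∈ 𝒱 ∧
      ∀ C' : Finset E, C' ⊂ C → S ∪ C' ∉ 𝒱 := by
  unfold link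
  simp

theorem mem_chainMin (𝒞 : Finset (Finset (Finset E))) (j : ℕ) (A : Finset E) :
    A ∈ chainMin 𝒞 j ↔ A.card = j ∧ ∃ 𝒱 ∈ 𝒞, A ∈ 𝒱 ∧
      ∀ A' : Finset E, A' ⊂ A → A' ∉ 𝒱 := by
  unfold chainMin
  simp

theorem sum_half (t : ℕ) : ∑ i ∈ Icc 1 t, ((1 : ℝ) / 2) ^ i = 1 - (1 / 2) ^ t := by
  induction t with
  | zero => simp
  | succ t ih =>
    rw [Finset.sum_Icc_succ_top (by omega), ih]
    ring

theorem sum_le (B : ℝ) (hB : 0 < B) (t : ℕ) :
    ∑ i ∈ Icc 1 t, B ^ i * (2 * B) ^ (t - i) ≤ (2 * B) ^ t := by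
  have h : ∀ i ∈ Icc 1 t, B ^ i * (2 * B) ^ (t - i) = (2 * B) ^ t * (1 / 2) ^ i := by
    intro i hi
    rw [mem_Icc] at hi
    have e : (2 * B) ^ t = (2 * B) ^ i * (2 * B) ^ (t - i) := by
      rw [← pow_add]
      congr 1
      omega
    have e2 : ((2 : ℝ) * B) ^ i * (1 / 2) ^ i = B ^ i := by
      rw [← mul_pow]
      congr 1
      ring
    calc B ^ i * (2 * B) ^ (t - i) = ((2 * B) ^ i * (1 / 2) ^ i) * (2 * B) ^ (t - i) := by rw [e2]
      _ = ((2 * B) ^ i * (2 * B) ^ (t - i)) * (1 / 2) ^ i := by ring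
      _ = _ := by rw [← e]
  rw [Finset.sum_congr rfl h, ← Finset.mul_sum, sum_half]
  have h1 : 0 < (2 * B) ^ t := by positivity
  have h2 : (0 : ℝ) < (1 / 2) ^ t := by positivity
  nlinarith

/-- a minimal set whose union with `S` is in `𝒱` -/
theorem exists_link (𝒱 : Finset (Finset E)) (S A : Finset E) (hSA : S ⊆ A) (hA : A ∈ 𝒱) :
    ∃ C, C ⊆ A \ S ∧ C ∈ link 𝒱 S C.card := by
  classical
  have hne : ((A \ S).powerset.filter fun C => S ∪ C ∈ 𝒱).Nonempty :=
    ⟨A \ S, by rw [mem_filter, mem_powerset, union_sdiff_of_subset hSA]; exact ⟨Subset.rfl, hA⟩⟩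
  obtain ⟨C, hC, hmin⟩ := Finset.exists_min_image _ Finset.card hne
  rw [mem_filter, mem_powerset] at hC
  refine ⟨C, hC.1, ?_⟩
  rw [mem_link]
  refine ⟨rfl, ?_, hC.2, ?_⟩
  · exact Finset.disjoint_of_subset_left hC.1 sdiff_disjoint
  · intro C' h1 h2
    have h3 := hmin C' (by rw [mem_filter, mem_powerset]; exact ⟨h1.subset.trans hC.1, h2⟩)
    exact absurd (Finset.card_lt_card h1) (by omega)

theorem main (𝒞 : Finset (Finset (Finset E)))
    (hch : ∀ 𝒱 ∈ 𝒞, ∀ 𝒲 ∈ 𝒞, 𝒱 ⊆ 𝒲 ∨ 𝒲 ⊆ 𝒱) (b : ℕ) (B : ℝ) (hB : 0 < B)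
    (hl : ∀ 𝒱 ∈ 𝒞, ∀ (S : Finset E) (i : ℕ), S.card + i ≤ 2 * b →
      ((link 𝒱 S i).card : ℝ) ≤ B ^ i) (t : ℕ) : ∀ S : Finset E, S.card + t ≤ 2 * b →
    (((chainMin 𝒞 (S.card + t)).filter fun A => S ⊆ A).card : ℝ) ≤ (2 * B) ^ t := by
  classical
  induction t using Nat.strong_induction_on with
  | _ t ih =>
    intro S hS
    rcases Nat.eq_zero_or_pos t with rfl | ht
    · have : ((chainMin 𝒞 (S.card + 0)).filter fun A => S ⊆ A) ⊆ {S} := by
        intro A hA
        rw [mem_filter, mem_chainMin] at hA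
        rw [mem_singleton]
        exact (Finset.eq_of_subset_of_card_le hA.2 (by omega)).symm
      have h2 := Finset.card_le_card this
      rw [card_singleton] at h2
      rw [pow_zero]
      exact_mod_cast h2
    · -- the families which do not contain `S`
      have key : ∀ A ∈ (chainMin 𝒞 (S.card + t)).filter fun A => S ⊆ A,
          ∃ 𝒲 ∈ 𝒞.filter (fun 𝒲 => S ∉ 𝒲), A ∈ 𝒲 := by
        intro A hA
        rw [mem_filter, mem_chainMin] at hA
        obtain ⟨⟨hc, 𝒲, h1, h2, h3⟩, h4⟩ := hA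
        refine ⟨𝒲, ?_, h2⟩
        rw [mem_filter]
        refine ⟨h1, h3 S ?_⟩
        refine Finset.ssubset_iff_subset_ne.2 ⟨h4, ?_⟩
        rintro rfl
        omega
      rcases (𝒞.filter fun 𝒲 => S ∉ 𝒲).eq_empty_or_nonempty with he | hne
      · have : ((chainMin 𝒞 (S.card + t)).filter fun A => S ⊆ A) = ∅ := by
          rw [Finset.eq_empty_iff_forall_notMem]
          intro A hA
          obtain ⟨𝒲, h1, -⟩ := key A hA
          rw [he] at h1
          exact absurd h1 (Finset.notMem_empty _)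
        rw [this, card_empty]
        have : 0 < (2 * B) ^ t := by positivity
        exact_mod_cast this.le
      · obtain ⟨𝒱, h𝒱, hmax⟩ := Finset.exists_max_image _ Finset.card hne
        rw [mem_filter] at h𝒱
        have hsub : ∀ 𝒲 ∈ 𝒞.filter (fun 𝒲 => S ∉ 𝒲), 𝒲 ⊆ 𝒱 := by
          intro 𝒲 hW
          rcases hch 𝒱 h𝒱.1 𝒲 (mem_filter.1 hW).1 with h | h
          · rw [Finset.eq_of_subset_of_card_le h (hmax 𝒲 hW)]
          · exact h
        have hcov : ((chainMin 𝒞 (S.card + t)).filter fun A => S ⊆ A) ⊆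
            (Icc 1 t).biUnion fun i => (link 𝒱 S i).biUnion fun C =>
              (chainMin 𝒞 (S.card + t)).filter fun A => S ∪ C ⊆ A := by
          intro A hA
          obtain ⟨𝒲, h1, h2⟩ := key A hA
          have hAV : A ∈ 𝒱 := hsub 𝒲 h1 h2
          rw [mem_filter] at hA
          obtain ⟨hA1, hSA⟩ := hA
          have hAc : A.card = S.card + t := ((mem_chainMin 𝒞 _ A).1 hA1).1
          obtain ⟨C, hC1, hC2⟩ := exists_link 𝒱 S A hSA hAV
          obtain ⟨-, hC3, hC4, -⟩ := (mem_link 𝒱 S C.card C).1 hC2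
          have hU : S ∪ C ⊆ A := union_subset hSA (hC1.trans sdiff_subset)
          have hUc : (S ∪ C).card = S.card + C.card := card_union_of_disjoint hC3.symm
          have hle : C.card ≤ t := by
            have := Finset.card_le_card hU
            omega
          have hpos : 1 ≤ C.card := by
            rw [Nat.one_le_iff_ne_zero]
            intro h0
            rw [Finset.card_eq_zero] at h0
            rw [h0, union_empty] at hC4
            exact h𝒱.2 hC4
          rw [mem_biUnion]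
          refine ⟨C.card, mem_Icc.2 ⟨hpos, hle⟩, ?_⟩
          rw [mem_biUnion]
          exact ⟨C, hC2, mem_filter.2 ⟨hA1, hU⟩⟩
        have h1 : (((chainMin 𝒞 (S.card + t)).filter fun A => S ⊆ A).card : ℝ) ≤
            ∑ i ∈ Icc 1 t, ∑ C ∈ link 𝒱 S i,
              (((chainMin 𝒞 (S.card + t)).filter fun A => S ∪ C ⊆ A).card : ℝ) := by
          have a1 := Finset.card_le_card hcov
          have a2 : ((Icc 1 t).biUnion fun i => (link 𝒱 S i).biUnion fun C =>
              (chainMin 𝒞 (S.card + t)).filter fun A => S ∪ C ⊆ A).card ≤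
              ∑ i ∈ Icc 1 t, ∑ C ∈ link 𝒱 S i,
                ((chainMin 𝒞 (S.card + t)).filter fun A => S ∪ C ⊆ A).card := by
            refine card_biUnion_le.trans (Finset.sum_le_sum fun i _ => card_biUnion_le)
          exact_mod_cast a1.trans a2
        have h2 : ∀ i ∈ Icc 1 t, ∑ C ∈ link 𝒱 S i,
              (((chainMin 𝒞 (S.card + t)).filter fun A => S ∪ C ⊆ A).card : ℝ) ≤
              B ^ i * (2 * B) ^ (t - i) := by
          intro i hi
          rw [mem_Icc] at hi
          have h3 : ∀ C ∈ link 𝒱 S i,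
              (((chainMin 𝒞 (S.card + t)).filter fun A => S ∪ C ⊆ A).card : ℝ) ≤
              (2 * B) ^ (t - i) := by
            intro C hC
            obtain ⟨hC1, hC3, -, -⟩ := (mem_link 𝒱 S i C).1 hC
            have hUc : (S ∪ C).card = S.card + i := by
              rw [card_union_of_disjoint hC3.symm, hC1]
            have h4 := ih (t - i) (by omega) (S ∪ C) (by rw [hUc]; omega)
            have h5 : (S ∪ C).card + (t - i) = S.card + t := by rw [hUc]; omega
            rwa [h5] at h4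
          calc ∑ C ∈ link 𝒱 S i,
              (((chainMin 𝒞 (S.card + t)).filter fun A => S ∪ C ⊆ A).card : ℝ)
              ≤ ∑ _C ∈ link 𝒱 S i, (2 * B) ^ (t - i) := Finset.sum_le_sum h3
            _ = (link 𝒱 S i).card * (2 * B) ^ (t - i) := by rw [Finset.sum_const, nsmul_eq_mul]
            _ ≤ B ^ i * (2 * B) ^ (t - i) := by
              apply mul_le_mul_of_nonneg_right (hl 𝒱 h𝒱.1 S i (by omega))
              positivity
        exact h1.trans ((Finset.sum_le_sum h2).trans (sum_le B hB t))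

end Chx

/-- Item Ch. -/
theorem pfCh : StCh := by
  intro E _ _ 𝒞 hch b B hB hl j hj
  have h := Chx.main 𝒞 hch b B hB hl j ∅ (by simpa using hj)
  rw [card_empty, Nat.zero_add] at h
  have e : (chainMin 𝒞 j).filter (fun A => (∅ : Finset E) ⊆ A) = chainMin 𝒞 j := by
    apply Finset.filter_true_of_mem
    intro A _
    exact empty_subset A
  rw [e] at h
  exact h

end Pool.Agent.RG
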