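import Pool.Agent.Work.MP_71c844_lc.RG.Stmts

/-!
Item Cl of block RG: the closure operator.
-/

namespace Pool.Agent.RG

open Finset
open Pool.Agent.NegLim (Tn miss Closed lowSets minMembers trim Dich)
open Pool.Agent.Rec82 (Sun)
open Pool.Agent.LayCirc (inp)

namespace Clx

variable {E : Type} [Fintype E] [DecidableEq E]

theorem mem_cl (δ : ℝ) (L b : ℕ) (ε : ℝ) (𝒰 : Finset (Finset E)) (K : Finset E) :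
    K ∈ cl δ L b ε 𝒰 ↔ K ∈ lowSets E b ∧ ∀ 𝒱 : Finset (Finset E), 𝒰 ⊆ 𝒱 →
      𝒱 ⊆ lowSets E b → Closed δ L b ε 𝒱 → K ∈ 𝒱 := by
  classical
  unfold cl
  rw [Finset.mem_filter]

end Clx

open Clx in
theorem pfCl : StCl := by
  intro E _ _ δ L b ε h0 h1 hε 𝒰 h𝒰
  have hsub : ∀ 𝒱 : Finset (Finset E), 𝒰 ⊆ 𝒱 → 𝒱 ⊆ lowSets E b → Closed δ L b ε 𝒱 →
      cl δ L b ε 𝒰 ⊆ 𝒱 := fun 𝒱 h2 h3 h4 K hK => ((mem_cl δ L b ε 𝒰 K).1 hK).2 𝒱 h2 h3 h4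
  refine ⟨?_, ?_, ?_, ?_, ?_⟩
  · intro K hK
    exact (mem_cl δ L b ε 𝒰 K).2 ⟨h𝒰 hK, fun 𝒱 h2 _ _ => h2 hK⟩
  · intro K hK
    exact ((mem_cl δ L b ε 𝒰 K).1 hK).1
  · intro K hK hT
    refine (mem_cl δ L b ε 𝒰 K).2 ⟨?_, fun 𝒱 h2 h3 h4 => ?_⟩
    · unfold NegLim.lowSets
      exact Finset.mem_filter.2 ⟨Finset.mem_univ _, hK⟩
    · refine h4 K hK (le_trans ?_ hT)
      exact NegLim.Tn_mono h0 h1 (fun y => NegLim.miss_mono (hsub 𝒱 h2 h3 h4) (y ∪ K)) L ∅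
  · obtain ⟨𝒱, h2, h3, h4, h5⟩ := NegLim.exists_closed h0 h1 L b ε hε 𝒰 h𝒰
    refine le_trans ?_ h5
    refine NegLim.Tn_mono h0 h1 (fun y => ?_) L ∅
    have := NegLim.miss_mono (hsub 𝒱 h2 h3 h4) y
    linarith
  · intro 𝒰' h𝒰' hUU K hK
    refine (mem_cl δ L b ε 𝒰' K).2 ⟨((mem_cl δ L b ε 𝒰 K).1 hK).1, fun 𝒱 h2 h3 h4 => ?_⟩
    exact hsub 𝒱 (hUU.trans h2) h3 h4 hK

end Pool.Agent.RG
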