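import Pool.Agent.Work.MP_71c844_lc.RG.Stmts

/-! Item [71c844 RG Lk] (helper63): links of closed families have few minimal members. -/

namespace Pool.Agent.RG

open Finset
open Pool.Agent.NegLim (Tn miss Closed lowSets minMembers trim Dich)
open Pool.Agent.Rec82 (Sun)

namespace Lkx

variable {E : Type} [Fintype E] [DecidableEq E]

theorem mem_link {𝒱 : Finset (Finset E)} {S : Finset E} {i : ℕ} {C : Finset E} :
    C ∈ link 𝒱 S i ↔ C.card = i ∧ Disjoint C S ∧ S ∪ C ∈ 𝒱 ∧
      ∀ C' : Finset E, C' ⊂ C → S ∪ C' ∉ 𝒱 := by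
  classical
  unfold link
  rw [Finset.mem_filter]
  simp

theorem miss_le (𝒱 : Finset (Finset E)) (S : Finset E) (i : ℕ) (K y : Finset E) :
    miss 𝒱 (y ∪ (S ∪ K)) ≤ miss (link 𝒱 S i) (y ∪ K) := by
  unfold miss
  split_ifs with g1 g2 g2
  · exact le_rfl
  · exact zero_le_one
  · obtain ⟨A, hA, hAy⟩ := g2
    exfalso
    refine g1 ⟨S ∪ A, (mem_link.mp hA).2.2.1, ?_⟩
    intro x hx
    rcases Finset.mem_union.mp hx with h | h
    · exact Finset.mem_union_right _ (Finset.mem_union_left _ h)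
    · rcases Finset.mem_union.mp (hAy h) with h' | h'
      · exact Finset.mem_union_left _ h'
      · exact Finset.mem_union_right _ (Finset.mem_union_right _ h')
  · exact le_rfl

end Lkx

theorem pfLk : StLk := by
  intro E _ _ δ L b B ε h0 h1 hsun 𝒱 hc S i hi
  by_contra hcon
  push Not at hcon
  obtain ⟨K, ⟨C, hC, hKC⟩, hK⟩ := hsun i (link 𝒱 S i) (by omega)
    (fun A hA => (Lkx.mem_link.mp hA).1) hcon
  rw [Lkx.mem_link] at hC
  have hKcard : K.card < C.card := Finset.card_lt_card hKC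
  refine hC.2.2.2 K hKC (hc (S ∪ K) ?_ ?_)
  · have h2 := Finset.card_union_le S K
    omega
  · exact le_trans (Pool.Agent.NegLim.Tn_mono h0 h1 (fun y => Lkx.miss_le 𝒱 S i K y) _ _) hK

end Pool.Agent.RG
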