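import Pool.Agent.Work.MP_71c844_lc.RG.Stmts

/-!
Item Mo of the block RG: the frozen circuit is nondecreasing.
-/

namespace Pool.Agent.RG

open Finset

theorem pfMo : StMo := by
  intro ι s c h x x' hx i
  induction hi : i.1 using Nat.strong_induction_on generalizing i with
  | _ n ih =>
    rw [fval, fval]
    generalize c i = g
    cases g with
    | var e =>
      have he := hx e
      show (if x e then (1 : ℝ) else 0) ≤ if x' e then (1 : ℝ) else 0
      rcases hxe : x e with _ | _
      · rcases hxe' : x' e with _ | _ <;> simp
      · rw [hxe] at he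
        rcases hxe' : x' e with _ | _
        · rw [hxe'] at he; exact absurd (he rfl) Bool.false_ne_true
        · exact le_rfl
    | const r => exact le_rfl
    | mon φ hφ j k =>
      exact hφ _ _ _ _ (ih j.1 (hi ▸ j.2) ⟨j.1, j.2.trans i.2⟩ rfl)
        (ih k.1 (hi ▸ k.2) ⟨k.1, k.2.trans i.2⟩ rfl)
    | arb m a f => exact le_rfl

end Pool.Agent.RG
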