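import Pool.Agent.Work.MP_71c844_lc.RG.Stmts

/-!
Block RG, item Pc: the query separates.
-/

namespace Pool.Agent.RG

namespace Pcx

/-- the pattern of a gate read by arbitrary gates is its value -/
theorem pat_fed {ι : Type} {s : ℕ} (c : Circuit ι s) (x : ι → Bool) (j : Fin s) (hj : Fed c j) :
    pat c x j = val c x j := by
  unfold pat
  rw [if_pos hj]

open Classical in
/-- the query is true as soon as one of the two alternatives holds -/
theorem qry_iff {ι : Type} {s : ℕ} (c : Circuit ι s) (o : Fin s) (h : Fin s → ℝ) (x : ι → Bool) :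
    qry c o h x = true ↔ (0 < fval c h x o ∨ ∃ j, Fed c j ∧ h j < fval c h x j) := by
  unfold qry
  exact decide_eq_true_iff

/-- the frozen circuit at its own pattern has the right values -/
theorem own (hFz : StFz) {ι : Type} {s : ℕ} (c : Circuit ι s) (x : ι → Bool) (j : Fin s) :
    fval c (pat c x) x j = val c x j :=
  hFz ι s c (pat c x) x j.1 (fun k _ hk => pat_fed c x k hk) j le_rfl

end Pcx

theorem pfPc : StMo → StFz → StPc := by
  intro hMo hFz ι s c o x
  refine ⟨?_, ?_⟩
  · rw [Pcx.qry_iff, Pcx.own hFz]
    constructor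
    · rintro (h | ⟨j, hj, hlt⟩)
      · exact h
      · exfalso
        rw [Pcx.own hFz, Pcx.pat_fed c x j hj] at hlt
        exact lt_irrefl _ hlt
    · intro h
      exact Or.inl h
  · intro x' hxx' hpos
    rw [Pcx.qry_iff]
    by_cases hall : ∀ j : Fin s, Fed c j → val c x j = val c x' j
    · left
      have h1 : fval c (pat c x) x' o = val c x' o := by
        apply hFz ι s c (pat c x) x' o.1 _ o le_rfl
        intro k _ hk
        rw [Pcx.pat_fed c x k hk]
        exact hall k hk
      rw [h1]
      exact hpos
    · right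
      push Not at hall
      classical
      have hex : ∃ n : ℕ, ∃ j : Fin s, j.1 = n ∧ Fed c j ∧ val c x j ≠ val c x' j := by
        obtain ⟨j, hj, hne⟩ := hall
        exact ⟨j.1, j, rfl, hj, hne⟩
      obtain ⟨n, hn, hne⟩ := Nat.find_spec hex
      refine ⟨n, hne.1, ?_⟩
      have h1 : fval c (pat c x) x' n = val c x' n := by
        apply hFz ι s c (pat c x) x' n.1 _ n le_rfl
        intro k hk hfk
        rw [Pcx.pat_fed c x k hfk]
        by_contra hcon
        rw [hn] at hk
        exact Nat.find_min hex hk ⟨k, rfl, hfk, hcon⟩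
      have h2 := hMo ι s c (pat c x) x x' hxx' n
      rw [Pcx.own hFz, h1] at h2
      rw [Pcx.pat_fed c x n hne.1, h1]
      exact lt_of_le_of_ne h2 hne.2

end Pool.Agent.RG
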