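import Pool.Agent.Work.MP_71c844_lc.RG.Stmts

/-!
Item Pl of the block RG: few planted sets contain one of few sets.
-/

namespace Pool.Agent.RG

open Finset

namespace Plx

/-- a geometric sum -/
theorem geo (j₀ : ℕ) (ρ : ℝ) (h0 : 0 ≤ ρ) (hρ : ρ ≤ 1 / 2) (n : ℕ) :
    ∑ j ∈ Finset.Ico j₀ n, ρ ^ j ≤ 2 * ρ ^ j₀ := by
  have hgeo : ∀ m : ℕ, ∑ j ∈ Finset.Ico j₀ (j₀ + m), ρ ^ j ≤
      2 * ρ ^ j₀ - 2 * ρ ^ (j₀ + m) := by
    intro m
    induction m with
    | zero => simp
    | succ m ih =>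
      rw [← add_assoc, Finset.sum_Ico_succ_top (by omega)]
      have : ρ ^ (j₀ + m + 1) ≤ (1 / 2) * ρ ^ (j₀ + m) := by
        rw [pow_succ, mul_comm]
        exact mul_le_mul_of_nonneg_right hρ (by positivity)
      linarith
  rcases le_total j₀ n with hle | hle
  · obtain ⟨m, hm⟩ := Nat.exists_eq_add_of_le hle
    rw [hm]
    have := hgeo m
    have h4 : 0 ≤ ρ ^ (j₀ + m) := by positivity
    linarith
  · rw [Finset.Ico_eq_empty_of_le hle]
    simp only [Finset.sum_empty]
    positivity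

end Plx

open Classical in
/-- Item Pl. -/
theorem pfPl : StPl := by
  intro E _ _ U _ b D q hD hq hDq Y hY M hM hMc j₀
  have hsub : (univ.filter (fun u => ∃ j, j₀ ≤ j ∧ j ≤ 2 * b ∧ ∃ A ∈ M j, A ⊆ Y u)) ⊆
      (Finset.Ico j₀ (2 * b + 1)).biUnion (fun j => (M j).biUnion
        (fun A => univ.filter (fun u => A ⊆ Y u))) := by
    intro u hu
    rw [Finset.mem_filter] at hu
    obtain ⟨-, j, h1, h2, A, hA, hAu⟩ := hu
    simp only [Finset.mem_biUnion, Finset.mem_Ico, Finset.mem_filter, Finset.mem_univ, true_and]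
    exact ⟨j, ⟨h1, by omega⟩, A, hA, hAu⟩
  have h2 : ((univ.filter (fun u => ∃ j, j₀ ≤ j ∧ j ≤ 2 * b ∧ ∃ A ∈ M j, A ⊆ Y u)).card : ℝ)
      ≤ ∑ j ∈ Finset.Ico j₀ (2 * b + 1), ∑ A ∈ M j,
        ((univ.filter (fun u => A ⊆ Y u)).card : ℝ) := by
    have e1 := (Finset.card_le_card hsub).trans Finset.card_biUnion_le
    have e2 : ∀ j ∈ Finset.Ico j₀ (2 * b + 1), ((M j).biUnion
        (fun A => univ.filter (fun u => A ⊆ Y u))).card ≤
        ∑ A ∈ M j, (univ.filter (fun u => A ⊆ Y u)).card :=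
      fun j _ => Finset.card_biUnion_le
    have e3 := e1.trans (Finset.sum_le_sum e2)
    exact_mod_cast e3
  refine h2.trans ?_
  have h3 : ∀ j ∈ Finset.Ico j₀ (2 * b + 1), ∑ A ∈ M j,
        ((univ.filter (fun u => A ⊆ Y u)).card : ℝ) ≤ Fintype.card U * (D / q) ^ j := by
    intro j hj
    rw [Finset.mem_Ico] at hj
    calc ∑ A ∈ M j, ((univ.filter (fun u => A ⊆ Y u)).card : ℝ)
        ≤ ∑ A ∈ M j, Fintype.card U * (1 / q) ^ j := by
          apply Finset.sum_le_sum
          intro A hA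
          have hAj := hM j A hA
          have := hY A (by omega)
          rwa [hAj] at this
      _ = (M j).card * (Fintype.card U * (1 / q) ^ j) := by
          rw [Finset.sum_const, nsmul_eq_mul]
      _ ≤ D ^ j * (Fintype.card U * (1 / q) ^ j) := by
          apply mul_le_mul_of_nonneg_right _ (by positivity)
          exact hMc j (by omega)
      _ = Fintype.card U * (D / q) ^ j := by
          have e : (D / q) ^ j = D ^ j * (1 / q) ^ j := by rw [← mul_pow]; congr 1; ring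
          rw [e]; ring
  refine (Finset.sum_le_sum h3).trans ?_
  rw [← Finset.mul_sum]
  apply mul_le_mul_of_nonneg_left _ (by positivity)
  exact Plx.geo j₀ (D / q) (by positivity) hDq (2 * b + 1)

end Pool.Agent.RG
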