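import Pool.Agent.Work.MP_71c844_lc.RG.Stmts

/-!
Block RG, item Qp: the query is a program with `2 s + 1` instructions.
-/

namespace Pool.Agent.RG

open Finset
open Pool.Agent.NegLim (Tn miss Closed lowSets minMembers trim Dich)
open Pool.Agent.Rec82 (Sun)
open Pool.Agent.LayCirc (inp)

namespace Qpx

variable {ι : Type} {s : ℕ}

lemma fval_var (c : Circuit ι s) (h : Fin s → ℝ) (x : ι → Bool) (i : Fin s) (e : ι)
    (hc : c i = .var e) : fval c h x i = if x e then 1 else 0 := by
  rw [fval, hc]

lemma fval_const (c : Circuit ι s) (h : Fin s → ℝ) (x : ι → Bool) (i : Fin s) (r : ℝ)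
    (hc : c i = .const r) : fval c h x i = r := by
  rw [fval, hc]

lemma fval_mon (c : Circuit ι s) (h : Fin s → ℝ) (x : ι → Bool) (i : Fin s)
    (φ : ℝ → ℝ → ℝ) (hφ : ∀ a b c d, a ≤ b → c ≤ d → φ a c ≤ φ b d) (j k : Fin i.1)
    (hc : c i = .mon φ hφ j k) : fval c h x i =
      φ (fval c h x ⟨j.1, j.2.trans i.2⟩) (fval c h x ⟨k.1, k.2.trans i.2⟩) := by
  rw [fval, hc]

lemma fval_arb (c : Circuit ι s) (h : Fin s → ℝ) (x : ι → Bool) (i : Fin s)
    (m : ℕ) (a : Fin m → Fin i.1) (f : (Fin m → ℝ) → ℝ)
    (hc : c i = .arb m a f) : fval c h x i = f fun l => h ⟨(a l).1, (a l).2.trans i.2⟩ := by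
  rw [fval, hc]

/-- The frozen values, extended by `0`. -/
noncomputable def Vv {E : Type} [DecidableEq E] (c : Circuit ι s) (h : Fin s → ℝ)
    (π : ι → Bool ⊕ E) (x : Finset E) (i : ℕ) (z : Finset E) : ℝ :=
  if hi : i < s then fval c h (inp π (x ∪ z)) ⟨i, hi⟩ else 0

open Classical in
/-- One step of the disjunction. -/
noncomputable def ph (c : Circuit ι s) (h : Fin s → ℝ) (k : ℕ) (a b : ℝ) : ℝ :=
  if ∃ hk : k < s, Fed c ⟨k, hk⟩ ∧ h ⟨k, hk⟩ < b then max a 1 else a

lemma ph_mono (c : Circuit ι s) (h : Fin s → ℝ) (k : ℕ) (a b a' b' : ℝ) (h1 : a ≤ b)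
    (h2 : a' ≤ b') : ph c h k a a' ≤ ph c h k b b' := by
  unfold ph
  by_cases h3 : ∃ hk : k < s, Fed c ⟨k, hk⟩ ∧ h ⟨k, hk⟩ < a'
  · have h4 : ∃ hk : k < s, Fed c ⟨k, hk⟩ ∧ h ⟨k, hk⟩ < b' := by
      obtain ⟨hk, hf, hlt⟩ := h3
      exact ⟨hk, hf, hlt.trans_le h2⟩
    rw [if_pos h3, if_pos h4]
    exact max_le_max h1 le_rfl
  · rw [if_neg h3]
    split_ifs
    · exact h1.trans (le_max_left _ _)
    · exact h1

/-- The accumulated disjunction. -/
noncomputable def Tt {E : Type} [DecidableEq E] (c : Circuit ι s) (o : Fin s) (h : Fin s → ℝ)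
    (π : ι → Bool ⊕ E) (x : Finset E) : ℕ → Finset E → ℝ
  | 0, z => if 0 < Vv c h π x o.1 z then 1 else 0
  | k + 1, z => ph c h k (Tt c o h π x k z) (Vv c h π x k z)

open Classical in
lemma Tt_eq {E : Type} [DecidableEq E] (c : Circuit ι s) (o : Fin s) (h : Fin s → ℝ)
    (π : ι → Bool ⊕ E) (x z : Finset E) (k : ℕ) : Tt c o h π x k z =
      if (0 < Vv c h π x o.1 z ∨ ∃ j : Fin s, j.1 < k ∧ Fed c j ∧ h j < Vv c h π x j.1 z)
        then 1 else 0 := by
  induction k with
  | zero =>
    rw [Tt]
    by_cases h1 : 0 < Vv c h π x o.1 z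
    · rw [if_pos h1, if_pos (Or.inl h1)]
    · rw [if_neg h1, if_neg]
      rintro (h2 | ⟨j, hj, _⟩)
      · exact h1 h2
      · exact absurd hj (Nat.not_lt_zero _)
  | succ k ih =>
    rw [Tt, ih]
    unfold ph
    by_cases h1 : (0 < Vv c h π x o.1 z ∨ ∃ j : Fin s, j.1 < k ∧ Fed c j ∧
        h j < Vv c h π x j.1 z)
    · have h2 : (0 < Vv c h π x o.1 z ∨ ∃ j : Fin s, j.1 < k + 1 ∧ Fed c j ∧
          h j < Vv c h π x j.1 z) := by
        rcases h1 with h1 | ⟨j, hj, hj2⟩
        · exact Or.inl h1
        · exact Or.inr ⟨j, hj.trans (Nat.lt_succ_self k), hj2⟩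
      rw [if_pos h1, if_pos h2, max_self, ite_self]
    · rw [if_neg h1]
      by_cases h3 : ∃ hk : k < s, Fed c ⟨k, hk⟩ ∧ h ⟨k, hk⟩ < Vv c h π x k z
      · have h2 : (0 < Vv c h π x o.1 z ∨ ∃ j : Fin s, j.1 < k + 1 ∧ Fed c j ∧
            h j < Vv c h π x j.1 z) := by
          obtain ⟨hk, h4⟩ := h3
          exact Or.inr ⟨⟨k, hk⟩, Nat.lt_succ_self k, h4⟩
        rw [if_pos h3, if_pos h2]
        exact max_eq_right zero_le_one
      · have h2 : ¬ (0 < Vv c h π x o.1 z ∨ ∃ j : Fin s, j.1 < k + 1 ∧ Fed c j ∧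
            h j < Vv c h π x j.1 z) := by
          rintro (h4 | ⟨j, hj, hj2⟩)
          · exact h1 (Or.inl h4)
          · rcases Nat.lt_succ_iff_lt_or_eq.1 hj with h5 | h5
            · exact h1 (Or.inr ⟨j, h5, hj2⟩)
            · apply h3
              subst h5
              exact ⟨j.2, hj2⟩
        rw [if_neg h3, if_neg h2]

end Qpx

open Qpx in
/-- [RG Qp] The query is a program with `2 s + 1` instructions. -/
theorem pfQp : StQp := by
  intro E _ _ ι s c o h π x
  classical
  refine ⟨fun i z => if i < s then Vv c h π x i z else Tt c o h π x (i - s) z, ?_, ?_⟩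
  · intro i hi
    rcases lt_or_ge i s with his | his
    · have hF : ∀ z : Finset E, (if i < s then Vv c h π x i z else Tt c o h π x (i - s) z) =
          fval c h (inp π (x ∪ z)) ⟨i, his⟩ := by
        intro z
        rw [if_pos his]
        unfold Vv
        rw [dif_pos his]
      cases hc : c ⟨i, his⟩ with
      | var e =>
        cases hπ : π e with
        | inl b =>
          left
          refine ⟨if b then 1 else 0, fun z => ?_⟩
          show (if i < s then Vv c h π x i z else Tt c o h π x (i - s) z) = _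
          rw [hF, fval_var c h _ _ e hc]
          have : inp π (x ∪ z) e = b := by
            simp [Pool.Agent.LayCirc.inp, Pool.Agent.NegLim.pull, hπ]
          rw [this]
        | inr e' =>
          have hv : ∀ z, inp π (x ∪ z) e = decide (e' ∈ x ∪ z) := by
            intro z
            simp [Pool.Agent.LayCirc.inp, Pool.Agent.NegLim.pull, hπ]
          by_cases hx : e' ∈ x
          · left
            refine ⟨1, fun z => ?_⟩
            show (if i < s then Vv c h π x i z else Tt c o h π x (i - s) z) = _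
            rw [hF, fval_var c h _ _ e hc, hv]
            rw [if_pos]
            exact decide_eq_true (Finset.mem_union_left _ hx)
          · right
            left
            refine ⟨e', fun z => ?_⟩
            show (if i < s then Vv c h π x i z else Tt c o h π x (i - s) z) = _
            rw [hF, fval_var c h _ _ e hc, hv]
            simp [hx]
      | const r =>
        left
        refine ⟨r, fun z => ?_⟩
        show (if i < s then Vv c h π x i z else Tt c o h π x (i - s) z) = _
        rw [hF, fval_const c h _ _ r hc]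
      | mon φ hφ j k =>
        right
        right
        refine ⟨φ, hφ, j.1, j.2, k.1, k.2, fun z => ?_⟩
        show (if i < s then Vv c h π x i z else Tt c o h π x (i - s) z) =
          φ (if j.1 < s then Vv c h π x j.1 z else Tt c o h π x (j.1 - s) z)
            (if k.1 < s then Vv c h π x k.1 z else Tt c o h π x (k.1 - s) z)
        rw [hF, fval_mon c h _ _ φ hφ j k hc, if_pos (j.2.trans his), if_pos (k.2.trans his)]
        unfold Vv
        rw [dif_pos (j.2.trans his), dif_pos (k.2.trans his)]
      | arb m a f =>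
        left
        refine ⟨f fun l => h ⟨(a l).1, (a l).2.trans his⟩, fun z => ?_⟩
        show (if i < s then Vv c h π x i z else Tt c o h π x (i - s) z) = _
        rw [hF, fval_arb c h _ _ m a f hc]
    · right
      right
      rcases his.eq_or_lt with hs | hs
      · subst hs
        refine ⟨fun a _ => if 0 < a then 1 else 0, ?_, o.1, o.2, o.1, o.2, fun z => ?_⟩
        · intro a b _ _ hab _
          show (if 0 < a then (1 : ℝ) else 0) ≤ if 0 < b then 1 else 0
          by_cases h1 : 0 < a
          · rw [if_pos h1, if_pos (h1.trans_le hab)]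
          · rw [if_neg h1]
            split_ifs
            · exact zero_le_one
            · exact le_rfl
        · show (if s < s then Vv c h π x s z else Tt c o h π x (s - s) z) =
            if 0 < (if o.1 < s then Vv c h π x o.1 z else Tt c o h π x (o.1 - s) z) then 1 else 0
          rw [if_neg (lt_irrefl s), if_pos o.2, Nat.sub_self, Tt]
      · obtain ⟨k, rfl⟩ : ∃ k, i = s + 1 + k := ⟨i - (s + 1), by omega⟩
        have hk : k < s := by omega
        refine ⟨ph c h k, fun a b a' b' h1 h2 => ph_mono c h k a b a' b' h1 h2, s + k, by omega,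
          k, by omega, fun z => ?_⟩
        show (if s + 1 + k < s then Vv c h π x (s + 1 + k) z else
            Tt c o h π x (s + 1 + k - s) z) =
          ph c h k (if s + k < s then Vv c h π x (s + k) z else Tt c o h π x (s + k - s) z)
            (if k < s then Vv c h π x k z else Tt c o h π x (k - s) z)
        rw [if_neg (by omega), if_neg (by omega), if_pos hk]
        have e1 : s + 1 + k - s = k + 1 := by omega
        have e2 : s + k - s = k := by omega
        rw [e1, e2, Tt]
  · intro z
    show (if 2 * s < s then Vv c h π x (2 * s) z else Tt c o h π x (2 * s - s) z) = _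
    have e1 : 2 * s - s = s := by omega
    rw [if_neg (by omega), e1, Tt_eq]
    have hV : ∀ j : Fin s, Vv c h π x j.1 z = fval c h (inp π (x ∪ z)) j := by
      intro j
      unfold Vv
      rw [dif_pos j.2]
    refine if_congr ?_ rfl rfl
    unfold qry
    rw [decide_eq_true_iff, hV o]
    constructor
    · rintro (h1 | ⟨j, _, h2, h3⟩)
      · exact Or.inl h1
      · exact Or.inr ⟨j, h2, by rw [← hV j]; exact h3⟩
    · rintro (h1 | ⟨j, h2, h3⟩)
      · exact Or.inl h1
      · exact Or.inr ⟨j, j.2, h2, by rw [hV j]; exact h3⟩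

end Pool.Agent.RG
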