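import Pool.Agent.Work.MP_71c844_lc.RG.Rec
import Pool.Agent.Work.MP_71c844_lc.RG.I_Cl
import Pool.Agent.Work.MP_71c844_lc.RG.I_Lk
import Pool.Agent.Work.MP_71c844_lc.RG.I_Ch
import Pool.Agent.Work.MP_71c844_lc.RG.I_Pl
import Pool.Agent.Work.MP_71c844_lc.RG.I_St
import Pool.Agent.Work.MP_71c844_lc.RG.I_Ap
import Pool.Agent.Work.MP_71c844_lc.RG.I_Dc
import Pool.Agent.Work.MP_71c844_lc.RG.I_Dp
import Pool.Agent.Work.MP_71c844_lc.RG.I_Mo
import Pool.Agent.Work.MP_71c844_lc.RG.I_Fz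
import Pool.Agent.Work.MP_71c844_lc.RG.I_Pc
import Pool.Agent.Work.MP_71c844_lc.RG.I_Qp
import Pool.Agent.Work.MP_71c844_lc.RG.I_Qd

/-!
# Block RG: assembly of the items
-/

namespace Pool.Agent.RG

theorem allQd : StQd :=
  pfQd (pfDp (pfDc (pfAp (pfSt pfCl pfLk pfCh pfPl)))) pfMo pfQp

theorem allPc : StPc := pfPc pfMo pfFz

end Pool.Agent.RG
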