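import Mathlib

/-!
Circuits whose wires carry real numbers.
-/

namespace Pool.Agent.RG

/-- The gates that may read the outputs of the gates number `0, …, n - 1`, over the Boolean input
variables `ι`: a variable (with the value `0` or `1`), a real constant, a gate with two inputs which
computes any function of two real numbers that is nondecreasing in both of them, and an arbitrary
gate with any number `m` of inputs which computes any function of `m` real numbers. -/
inductive Gate (ι : Type) (n : ℕ) where
  | var (i : ι)
  | const (r : ℝ)
  | mon (φ : ℝ → ℝ → ℝ) (hφ : ∀ a b c d, a ≤ b → c ≤ d → φ a c ≤ φ b d) (j k : Fin n)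
  | arb (m : ℕ) (a : Fin m → Fin n) (f : (Fin m → ℝ) → ℝ)

/-- A circuit with `s` gates, over the input variables `ι`. Gate number `i` reads only gates with
smaller numbers. -/
abbrev Circuit (ι : Type) (s : ℕ) : Type := (i : Fin s) → Gate ι i.1

variable {ι : Type} {s : ℕ}

/-- The value of gate number `i` on the input `x`. -/
noncomputable def val (c : Circuit ι s) (x : ι → Bool) (i : Fin s) : ℝ :=
  match c i with
  | .var e => if x e then 1 else 0
  | .const r => r
  | .mon φ _ j k => φ (val c x ⟨j.1, j.2.trans i.2⟩) (val c x ⟨k.1, k.2.trans i.2⟩)
  | .arb _ a f => f fun l => val c x ⟨(a l).1, (a l).2.trans i.2⟩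
termination_by i.1
decreasing_by
  · exact j.2
  · exact k.2
  · exact (a l).2

/-- Gate number `j` is an input of some arbitrary gate. -/
def Fed (c : Circuit ι s) (j : Fin s) : Prop :=
  ∃ (i : Fin s) (m : ℕ) (a : Fin m → Fin i.1) (f : (Fin m → ℝ) → ℝ) (l : Fin m),
    c i = .arb m a f ∧ (a l).1 = j.1

/-- The vector of the values, on the input `x`, of all gates that are inputs of arbitrary gates. -/
noncomputable def pattern (c : Circuit ι s) (x : ι → Bool) : {j : Fin s // Fed c j} → ℝ :=
  fun j => val c x j.1

/-- The input consisting of `x` and of the guess `y`; the two literals of the `l`-th bit of the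
guess are the input variables `(l, true)` (equal to `y l`) and `(l, false)` (its negation). -/
def withGuess {a : ℕ} (x : ι → Bool) (y : Fin a → Bool) : ι ⊕ (Fin a × Bool) → Bool :=
  Sum.elim x fun p => y p.1 == p.2

end Pool.Agent.RG
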