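import Pool.Agent.Work.MP_71c844_lc.RG.Stmts

/-!
Item Fz of the block RG: the frozen circuit computes the right values as long as the pattern is
right.
-/

namespace Pool.Agent.RG

namespace Fzx

variable {ι : Type} {s : ℕ}

theorem step (c : Circuit ι s) (h : Fin s → ℝ) (x : ι → Bool) (n : ℕ)
    (hh : ∀ j : Fin s, j.1 < n → Fed c j → h j = val c x j) :
    ∀ (m : ℕ) (hm : m < s), m ≤ n → fval c h x ⟨m, hm⟩ = val c x ⟨m, hm⟩ := by
  intro m
  induction m using Nat.strong_induction_on with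
  | _ m ih =>
    intro hm hmn
    rw [fval, val]
    rcases hc : c ⟨m, hm⟩ with e | r | ⟨φ, hφ, j, k⟩ | ⟨l, a, f⟩
    · rfl
    · rfl
    · have hj : j.1 < m := j.2
      have hk : k.1 < m := k.2
      show φ (fval c h x ⟨j.1, _⟩) (fval c h x ⟨k.1, _⟩) = φ (val c x ⟨j.1, _⟩) (val c x ⟨k.1, _⟩)
      rw [ih j.1 hj (hj.trans hm) (by omega), ih k.1 hk (hk.trans hm) (by omega)]
    · show f (fun t => h ⟨(a t).1, _⟩) = f (fun t => val c x ⟨(a t).1, _⟩)
      congr 1
      funext t
      have ht : (a t).1 < m := (a t).2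
      exact hh _ (by show (a t).1 < n; omega) ⟨_, l, a, f, t, hc, rfl⟩

end Fzx

/-- Item Fz. -/
theorem pfFz : StFz := by
  intro ι s c h x n hh j hj
  exact Fzx.step c h x n hh j.1 j.2 hj

end Pool.Agent.RG
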