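import Pool.Agent.Work.MP_71c844_lc.RG.Circ
import Pool.Agent.Work.MP_71c844_lc.AV.Rec

/-!
# Block RG: size, patterns and guess bits of circuits with real gates, on average
-/

namespace Pool.Agent.RG

open Finset
open Pool.Agent.NegLim (pull lowSets)
open Pool.Agent.LayCirc (inp choose_kappa)
open Pool.Agent.AV (er Clq Distr exists_dist exists_point)
open Pool.Agent.Rec82 (Part Vtx Gr Seed planted proj Uniq)

set_option linter.unusedSectionVars false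

/-- The average-case bound in terms of the parameters of the construction. -/
lemma rec_avg (hQd : StQd) (hPc : StPc) {b c N K ℓ κ r d v k : ℕ} (g : Fin N → Fin (2 * c) → Fin r)
    (hg : Uniq g (2 * b)) (hb : 1 ≤ b) (hc1 : 1 ≤ c) (hN1 : 1 ≤ N) (hℓ : 2 * b < 2 ^ ℓ)
    (hℓ1 : 1 ≤ ℓ) (hq : 128 * 2 ^ (K + 2) ≤ 2 ^ (2 * κ))
    (hk : N * (4 * c * κ + 2) + d = k) (hv : N * (16 * c * κ + 2 * 2 ^ κ) + d ≤ v)
    (hU : 2 * κ * r + 1 ≤ N) (hKN : K + 2 ≤ N + 1) :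
    ∃ Dd : (Sym2 (Fin v) → Bool) → ℝ, Distr univ Dd ∧
      ∀ (s a R P : ℕ) (C : Circuit (Sym2 (Fin v) ⊕ (Fin a × Bool)) s) (o : Fin s),
        (∀ j, Fed C j → ∀ (x : Sym2 (Fin v) → Bool) (y y' : Fin a → Bool),
          val C (withGuess x y) j = val C (withGuess x y') j) →
        1 ≤ P →
        (∀ x : ℕ → (Sym2 (Fin v) → Bool), Monotone x →
          (Set.range (fun i => pattern C (withGuess (x i) fun _ => false))).ncard ≤ P) →
        2 * s + 1 ≤ 2 ^ b →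
        2 ^ (K + 2) * (2 ^ a * ((2 * s + 2) * (((N * 2 ^ (2 * κ) + 1) ^ (2 * b) + 1) *
          (N * 2 ^ (2 * κ) + 1) ^ (2 * b)))) ≤ 2 ^ R →
        1 ≤ R →
        (2 : ℝ) ^ (K + 2) * (1 - 2 * ∑ x, Dd x *
          er (∀ y, 0 < val C (withGuess x y) o) (Clq v k x)) ≤
            44 * ((K + 2 : ℕ) : ℝ) * ((ℓ * R * P : ℕ) : ℝ) + 1 := by
  classical
  have hcardPart : Fintype.card (Part κ N (2 * c) d) = N * (4 * c * κ + 2) + d := by
    simp only [Fintype.card_sum, Fintype.card_prod, Fintype.card_fin]; ring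
  have hcardV : Fintype.card (Vtx κ N (2 * c) d) = N * (16 * c * κ + 2 * 2 ^ κ) + d := by
    simp only [Fintype.card_sum, Fintype.card_prod, Fintype.card_fin, Fintype.card_pi,
      Finset.prod_const, Finset.card_univ, ZMod.card]
    ring
  obtain ⟨ι⟩ : Nonempty (Vtx κ N (2 * c) d ↪ Fin v) :=
    Function.Embedding.nonempty_of_card_le (by rw [hcardV, Fintype.card_fin]; exact hv)
  have hkc : Fintype.card (Part κ N (2 * c) d) = k := by rw [hcardPart]; exact hk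
  have hM : (0 : ℝ) < 2 ^ (K + 2) := by positivity
  have h0' : (0 : ℝ) ≤ 1 / 2 ^ (K + 2) := by positivity
  have h1' : (1 : ℝ) / 2 ^ (K + 2) ≤ 1 := by
    rw [div_le_one hM]; exact one_le_pow₀ (by norm_num)
  obtain ⟨Dd, hD0, hD1, hDh, hDs⟩ := exists_dist (E := Gr κ N)
    (U := Seed κ r) (ι := Sym2 (Fin v)) (δ := 1 / (2 : ℝ) ^ (K + 2)) (n := 2 ^ K) h0' h1'
    Nat.one_le_two_pow (planted g) (proj ι g)
  have hcl : ∀ X : Finset (Gr κ N), Clq v k (inp (proj ι g) X) ↔ ∃ u, planted g u ⊆ X := by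
    intro x
    unfold Clq
    rw [← hkc]
    constructor
    · intro h
      obtain ⟨u, hu⟩ := Rec82.planted_of_clique ι g (by omega) hN1 (fun e => decide (e ∈ x)) h
      refine ⟨u, fun a ha => ?_⟩
      rw [Rec82.mem_planted] at ha
      have := hu a.1
      rw [ha] at this
      simpa using this
    · rintro ⟨u, hu⟩
      apply Rec82.clique_of_planted ι g (fun e => decide (e ∈ x)) u
      intro i
      simp only [decide_eq_true_eq]
      apply hu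
      rw [Rec82.mem_planted]
  refine ⟨Dd, ⟨fun x => hD0 x, hD1, fun x y _ _ e he => absurd (mem_univ e) he⟩, ?_⟩
  intro s a R P C o hfree hP1 hP hS hSR hR
  rw [hDh (fun x => er (∀ y, 0 < val C (withGuess x y) o) (Clq v k x))]
  have hsmall : (2 : ℝ) ^ (K + 2) * (1 / 2) ^ (N + 1) ≤ 1 := by
    have e1 : (2 : ℝ) ^ (K + 2) ≤ 2 ^ (N + 1) := pow_le_pow_right₀ (by norm_num) hKN
    have e2 : (2 : ℝ) ^ (N + 1) * (1 / 2) ^ (N + 1) = 1 := by rw [← mul_pow]; norm_num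
    have e3 : (0 : ℝ) < (1 / 2) ^ (N + 1) := by positivity
    nlinarith
  have key := guess_avg hQd hPc (E := Gr κ N) (U := Seed κ r) (b := b) (ℓ := ℓ) (K := K) (R := R)
    (N := N) (P := P) (q := (2 : ℝ) ^ (2 * κ)) (Y := planted g) hb hℓ (by exact_mod_cast hq)
    (fun A hA => Rec82.planted_spread g hg A hA)
    (fun u => (Rec82.card_planted g u).ge) (by
      rw [Rec82.card_seed, ← pow_succ']
      exact Nat.pow_le_pow_right (by norm_num) hU)
    (proj ι g) C o hfree (cl := Clq v k) hcl hP1 hP hS (by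
      refine le_trans ?_ hSR
      apply Nat.mul_le_mul_left
      apply Nat.mul_le_mul_left
      apply Nat.mul_le_mul_left
      have := NegLim.card_lowSets_le (E := Gr κ N) b
      rw [Rec82.card_Gr] at this
      exact Nat.mul_le_mul (Nat.succ_le_succ this) this) hR hℓ1
  linarith

/-- **The average-case theorem for patterns and guess bits.** -/
theorem main_rec (hQd : StQd) (hPc : StPc) (v k w : ℕ) (hv : 2 ≤ v)
    (hk : 600 * (w + 1) * (Nat.log 2 v + 1) ^ 4 ≤ k) (hkv : 2 * k ≤ v) :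
    ∃ Dd : (Sym2 (Fin v) → Bool) → ℝ, Distr univ Dd ∧
      ∀ (s a P : ℕ) (C : Circuit (Sym2 (Fin v) ⊕ (Fin a × Bool)) s) (o : Fin s),
        s < 2 ^ w →
        (∀ j, Fed C j → ∀ (x : Sym2 (Fin v) → Bool) (y y' : Fin a → Bool),
          val C (withGuess x y) j = val C (withGuess x y') j) →
        1 ≤ P →
        (∀ x : ℕ → (Sym2 (Fin v) → Bool), Monotone x →
          (Set.range (fun i => pattern C (withGuess (x i) fun _ => false))).ncard ≤ P) →
        (v : ℝ) ^ 2 * (1 - 2 * ∑ x, Dd x *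
          er (∀ y, 0 < val C (withGuess x y) o) (Clq v k x)) <
            2 ^ 34 * P * (a + w + 1) * (w + 1) ^ 2 * (Nat.log 2 v + 1) ^ 7 := by
  classical
  obtain ⟨b, hb⟩ : ∃ b, b = w + 1 := ⟨_, rfl⟩
  obtain ⟨L, hL⟩ : ∃ L, L = Nat.log 2 v + 1 := ⟨_, rfl⟩
  have hL' : ((Nat.log 2 v : ℝ) + 1) = (L : ℝ) := by rw [hL]; push_cast; ring
  have hb' : ((w : ℝ) + 1) = (b : ℝ) := by rw [hb]; push_cast; ring
  have hab : ∀ a : ℕ, (a : ℝ) + w + 1 = ((a + b : ℕ) : ℝ) := by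
    intro a
    rw [hb]; push_cast; ring
  rw [hL', hb']
  simp only [hab]
  rw [← hb, ← hL] at hk
  have hb1 : 1 ≤ b := by omega
  have hL2 : 2 ≤ L := by
    have : 1 ≤ Nat.log 2 v := Nat.log_pos (by norm_num) hv
    omega
  have hL1 : 1 ≤ L := by omega
  have hvL : v < 2 ^ L := by rw [hL]; exact Nat.lt_pow_succ_log_self (by norm_num) v
  have hbR : (1 : ℝ) ≤ b := by exact_mod_cast hb1
  have hLR : (1 : ℝ) ≤ L := by exact_mod_cast hL1
  have hbL : 1 ≤ b * L := Nat.one_le_iff_ne_zero.mpr (by positivity)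
  have hS : ∀ s : ℕ, s < 2 ^ w → 2 * s + 2 ≤ 2 ^ b := by
    intro s hs
    rw [hb, pow_succ]; omega
  by_cases hv1 : 6144 * b * L ^ 2 ≤ v
  swap
  · -- small graphs
    obtain ⟨Dd, hD⟩ := exists_point (v := v) univ
    refine ⟨Dd, hD, fun s a P C o hs _ hP1 _ => ?_⟩
    push Not at hv1
    have hP1' : (1 : ℝ) ≤ P := by exact_mod_cast hP1
    have hab1 : (1 : ℝ) ≤ ((a + b : ℕ) : ℝ) := by exact_mod_cast (by omega : 1 ≤ a + b)
    have h1 : (v : ℝ) < 6144 * b * L ^ 2 := by exact_mod_cast hv1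
    have h2 : 1 - 2 * ∑ x, Dd x * er (∀ y, 0 < val C (withGuess x y) o) (Clq v k x) ≤ 1 := by
      have := hD.er_le (fun x => ∀ y, 0 < val C (withGuess x y) o) (Clq v k)
      linarith
    calc (v : ℝ) ^ 2 * (1 - 2 * ∑ x, Dd x *
          er (∀ y, 0 < val C (withGuess x y) o) (Clq v k x))
        ≤ (v : ℝ) ^ 2 * 1 := mul_le_mul_of_nonneg_left h2 (by positivity)
      _ < (6144 * b * L ^ 2) ^ 2 := by
          rw [mul_one]
          exact pow_lt_pow_left₀ h1 (by positivity) (by norm_num)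
      _ = 37748736 * 1 * 1 * b ^ 2 * L ^ 4 := by ring
      _ ≤ 2 ^ 34 * P * ((a + b : ℕ) : ℝ) * b ^ 2 * L ^ 7 := by
          gcongr
          · norm_num
          · norm_num
  have hv2 : 3072 * b * L ^ 2 ≤ v := by
    refine le_trans ?_ hv1
    apply Nat.mul_le_mul_right
    apply Nat.mul_le_mul_right
    norm_num
  obtain ⟨κ, hκ4, hκL, hκ1, hκ2⟩ := choose_kappa b L v hb1 hL2 hvL hv2
  obtain ⟨N, hN⟩ : ∃ N, N = 24 * b * L ^ 2 := ⟨_, rfl⟩
  rw [← hN] at hκ1 hκ2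
  have hN1 : 1 ≤ N := by rw [hN]; exact Nat.one_le_iff_ne_zero.mpr (by positivity)
  have hκ5 : 5 ≤ κ := by
    by_contra hcon
    have hκ : κ = 4 := by omega
    rw [hκ] at hκ2
    have : 256 * N = 6144 * b * L ^ 2 := by rw [hN]; ring
    omega
  have hNv : N ≤ v := by
    have e1 : 24 * b * L ^ 2 ≤ 3072 * b * L ^ 2 := by
      apply Nat.mul_le_mul_right
      apply Nat.mul_le_mul_right
      norm_num
    omega
  obtain ⟨c, hc⟩ : ∃ c, c = L + 2 := ⟨_, rfl⟩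
  obtain ⟨r, hr⟩ : ∃ r, r = 6 * c * (2 * b) := ⟨_, rfl⟩
  have hr1 : 1 ≤ r := by
    rw [hr]
    have : 0 < c := by omega
    exact Nat.one_le_iff_ne_zero.mpr (by positivity)
  have h4N : 4 * N ≤ 2 ^ c := by
    rw [hc, pow_add]; omega
  obtain ⟨g, hg⟩ := Rec82.exists_expander N c (2 * b) r (by omega) h4N hr.ge hr1
  -- kappa (L+2) is at most L^2 - 4
  obtain ⟨e, he⟩ : ∃ e, L = κ + 2 + e := ⟨L - (κ + 2), by omega⟩
  have hcκ : c * κ + 4 ≤ L ^ 2 := by rw [hc, he]; nlinarith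
  obtain ⟨K, hK⟩ : ∃ K, 2 * κ = 7 + (K + 2) := ⟨2 * κ - 9, by omega⟩
  have hq : 128 * 2 ^ (K + 2) = 2 ^ (2 * κ) := by rw [hK, pow_add 2 7]; norm_num
  have hparts : N * (4 * c * κ + 2) ≤ 96 * b * L ^ 4 := by
    have e1 : 4 * c * κ + 2 ≤ 4 * L ^ 2 := by
      have : 4 * c * κ = 4 * (c * κ) := by ring
      omega
    calc N * (4 * c * κ + 2) ≤ N * (4 * L ^ 2) := Nat.mul_le_mul_left _ e1
      _ = 96 * b * L ^ 4 := by rw [hN]; ring
  have hbL4 : 96 * b * L ^ 4 ≤ 600 * b * L ^ 4 := by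
    apply Nat.mul_le_mul_right
    apply Nat.mul_le_mul_right
    norm_num
  obtain ⟨d, hd⟩ : ∃ d, N * (4 * c * κ + 2) + d = k := ⟨k - N * (4 * c * κ + 2), by omega⟩
  have hvert : N * (16 * c * κ + 2 * 2 ^ κ) + d ≤ v := by
    have e1 : N * (16 * c * κ + 2 * 2 ^ κ) = N * (4 * c * κ + 2) + N * (12 * (c * κ)) +
        2 * (N * 2 ^ κ) - 2 * N := by
      have : N * (16 * c * κ + 2 * 2 ^ κ) + 2 * N = N * (4 * c * κ + 2) + N * (12 * (c * κ)) +
        2 * (N * 2 ^ κ) := by ring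
      omega
    have e2 : N * (12 * (c * κ)) ≤ 288 * b * L ^ 4 := by
      calc N * (12 * (c * κ)) ≤ N * (12 * L ^ 2) := by
            apply Nat.mul_le_mul_left
            apply Nat.mul_le_mul_left
            omega
        _ = 288 * b * L ^ 4 := by rw [hN]; ring
    have e3 : 8 * (N * 2 ^ κ) ≤ v := by rw [← mul_assoc]; exact hκ1
    have e4 : 288 * b * L ^ 4 = 288 * (b * L ^ 4) := by ring
    have e5 : 600 * b * L ^ 4 = 600 * (b * L ^ 4) := by ring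
    omega
  have hU : 2 * κ * r + 1 ≤ N := by
    have e1 : 2 * κ * r = 24 * (c * κ) * b := by rw [hr]; ring
    have e2 : 24 * (c * κ + 4) * b ≤ 24 * L ^ 2 * b :=
      Nat.mul_le_mul_right _ (Nat.mul_le_mul_left _ hcκ)
    have e3 : 24 * (c * κ + 4) * b = 24 * (c * κ) * b + 96 * b := by ring
    have e4 : N = 24 * L ^ 2 * b := by rw [hN]; ring
    omega
  have hℓ : 2 * b < 2 ^ L := by
    have e1 : 3072 * b * 1 ≤ 3072 * b * L ^ 2 := Nat.mul_le_mul_left _ (Nat.one_le_pow _ _ hL1)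
    omega
  have hKL : K + 2 ≤ 2 * L := by omega
  have hKN : K + 2 ≤ N + 1 := by
    have e1 : 24 * 1 * (L * 1) ≤ 24 * b * L ^ 2 := by
      rw [pow_two]
      exact Nat.mul_le_mul (Nat.mul_le_mul_left _ hb1) (Nat.mul_le_mul_left _ hL1)
    omega
  obtain ⟨Dd, hD, hkey⟩ := rec_avg hQd hPc (ℓ := L) g hg hb1 (by omega) hN1 hℓ hL1 hq.le hd hvert
    hU hKN
  refine ⟨Dd, hD, fun s a P C o hs hfree hP1 hP => ?_⟩
  have hSR : 2 ^ (K + 2) * (2 ^ a * ((2 * s + 2) * (((N * 2 ^ (2 * κ) + 1) ^ (2 * b) + 1) *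
      (N * 2 ^ (2 * κ) + 1) ^ (2 * b)))) ≤ 2 ^ (a + 10 * b * L) := by
    have hS' := hS s hs
    have f1 : N * 2 ^ (2 * κ) + 1 ≤ 2 ^ (2 * L - 1) := by
      have g1 : 8 * (N * 2 ^ κ) ≤ v := by rw [← mul_assoc]; exact hκ1
      have g2 : 2 ^ κ ≤ N * 2 ^ κ := Nat.le_mul_of_pos_left _ hN1
      have g3 : N * 2 ^ (2 * κ) = (N * 2 ^ κ) * 2 ^ κ := by rw [two_mul, pow_add]; ring
      have g4 : (8 * (N * 2 ^ κ)) * (8 * 2 ^ κ) ≤ v * v := Nat.mul_le_mul g1 (by omega)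
      have g5 : v * v < 2 ^ L * 2 ^ L := Nat.mul_lt_mul'' hvL hvL
      have g6 : 2 ^ L * 2 ^ L = 2 ^ (2 * L - 1) * 2 := by
        rw [← pow_succ, ← pow_add]
        congr 1
        omega
      have g7 : (8 * (N * 2 ^ κ)) * (8 * 2 ^ κ) = 64 * ((N * 2 ^ κ) * 2 ^ κ) := by ring
      have g8 : 1 ≤ (N * 2 ^ κ) * 2 ^ κ := Nat.one_le_iff_ne_zero.mpr (by positivity)
      omega
    have f3 : (N * 2 ^ (2 * κ) + 1) ^ (2 * b) ≤ (2 ^ (2 * L - 1)) ^ (2 * b) :=
      Nat.pow_le_pow_left f1 _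
    have f4 : 1 ≤ (N * 2 ^ (2 * κ) + 1) ^ (2 * b) := Nat.one_le_pow _ _ (by omega)
    have f5 : (N * 2 ^ (2 * κ) + 1) ^ (2 * b) + 1 ≤ 2 * (2 ^ (2 * L - 1)) ^ (2 * b) := by omega
    have f2 : 2 ^ (K + 2) * (2 ^ a * ((2 * s + 2) * (((N * 2 ^ (2 * κ) + 1) ^ (2 * b) + 1) *
        (N * 2 ^ (2 * κ) + 1) ^ (2 * b)))) ≤
        2 ^ (2 * L) * (2 ^ a * (2 ^ b * ((2 ^ 1 * (2 ^ (2 * L - 1)) ^ (2 * b)) *
          (2 ^ (2 * L - 1)) ^ (2 * b)))) := by
      apply Nat.mul_le_mul (Nat.pow_le_pow_right (by norm_num) hKL)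
      apply Nat.mul_le_mul_left
      apply Nat.mul_le_mul (by omega)
      exact Nat.mul_le_mul (by rw [pow_one]; exact f5) f3
    refine f2.trans ?_
    rw [← pow_mul, ← pow_add, ← pow_add, ← pow_add, ← pow_add, ← pow_add]
    apply Nat.pow_le_pow_right (by norm_num)
    have g1 : (2 * L - 1) * (2 * b) + 2 * b = 4 * (b * L) := by
      obtain ⟨M, hM⟩ : ∃ M, 2 * L = M + 1 := ⟨2 * L - 1, by omega⟩
      have : 2 * L - 1 = M := by omega
      rw [this]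
      have h3 : 4 * (b * L) = 2 * b * (2 * L) := by ring
      rw [h3, hM]
      ring
    have g2 : 10 * b * L = 10 * (b * L) := by ring
    have g3 : L ≤ b * L := Nat.le_mul_of_pos_left _ (by omega)
    have g4 : b ≤ b * L := Nat.le_mul_of_pos_right _ (by omega)
    omega
  have hR : 1 ≤ a + 10 * b * L := by
    have g2 : 10 * b * L = 10 * (b * L) := by ring
    omega
  have key := hkey s a (a + 10 * b * L) P C o hfree hP1 hP (by have := hS s hs; omega) hSR hR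
  generalize 1 - 2 * ∑ x, Dd x *
    er (∀ y, 0 < val C (withGuess x y) o) (Clq v k x) = α at key ⊢
  have hP1' : (1 : ℝ) ≤ P := by exact_mod_cast hP1
  have hab1 : (1 : ℝ) ≤ ((a + b : ℕ) : ℝ) := by exact_mod_cast (by omega : 1 ≤ a + b)
  have hpos : (0 : ℝ) < 2 ^ 34 * P * ((a + b : ℕ) : ℝ) * b ^ 2 * L ^ 7 := by positivity
  rcases le_or_gt α 0 with hα | hα
  · exact lt_of_le_of_lt (mul_nonpos_of_nonneg_of_nonpos (by positivity) hα) hpos
  -- the final comparison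
  have e1 : (2 : ℝ) ^ (K + 2) * α ≤ 881 * L ^ 3 * (((a + b : ℕ) : ℝ) * P) := by
    have f1 : a + 10 * b * L ≤ 10 * L * (a + b) := by
      have g1 : 10 * L * (a + b) = 10 * L * a + 10 * b * L := by ring
      have g2 : a * 1 ≤ a * (10 * L) := Nat.mul_le_mul_left _ (by omega)
      have g3 : a * (10 * L) = 10 * L * a := by ring
      omega
    have f2 : 44 * (K + 2) * (L * (a + 10 * b * L) * P) ≤ 880 * L ^ 3 * ((a + b) * P) := by
      calc 44 * (K + 2) * (L * (a + 10 * b * L) * P) ≤ 44 * (2 * L) * (L * (10 * L * (a + b)) * P) :=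
            Nat.mul_le_mul (Nat.mul_le_mul_left _ hKL)
              (Nat.mul_le_mul_right _ (Nat.mul_le_mul_left _ f1))
        _ = 880 * L ^ 3 * ((a + b) * P) := by ring
    have f3 : 44 * ((K + 2 : ℕ) : ℝ) * ((L * (a + 10 * b * L) * P : ℕ) : ℝ) ≤
        880 * L ^ 3 * (((a + b : ℕ) : ℝ) * P) := by exact_mod_cast f2
    have f4 : (1 : ℝ) ≤ L ^ 3 * (((a + b : ℕ) : ℝ) * P) := by
      have : (1 : ℝ) ≤ L ^ 3 := one_le_pow₀ hLR
      exact one_le_mul_of_one_le_of_one_le this (one_le_mul_of_one_le_of_one_le hab1 hP1')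
    linarith
  have e2 : v ^ 2 < (16 * N * 2 ^ κ) ^ 2 := Nat.pow_lt_pow_left hκ2 (by norm_num)
  have e3 : (16 * N * 2 ^ κ) ^ 2 = 147456 * b ^ 2 * L ^ 4 * (128 * 2 ^ (K + 2)) := by
    rw [hq, hN, two_mul, pow_add]; ring
  have e4 : (v : ℝ) ^ 2 ≤ 147456 * b ^ 2 * L ^ 4 * (128 * 2 ^ (K + 2)) := by
    rw [e3] at e2
    exact_mod_cast e2.le
  calc (v : ℝ) ^ 2 * α ≤ 147456 * b ^ 2 * L ^ 4 * (128 * 2 ^ (K + 2)) * α :=
        mul_le_mul_of_nonneg_right e4 hα.le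
    _ = 18874368 * b ^ 2 * L ^ 4 * (2 ^ (K + 2) * α) := by ring
    _ ≤ 18874368 * b ^ 2 * L ^ 4 * (881 * L ^ 3 * (((a + b : ℕ) : ℝ) * P)) :=
        mul_le_mul_of_nonneg_left e1 (by positivity)
    _ = 16628318208 * (P * ((a + b : ℕ) : ℝ) * b ^ 2 * L ^ 7) := by ring
    _ < 2 ^ 34 * (P * ((a + b : ℕ) : ℝ) * b ^ 2 * L ^ 7) := by
        apply mul_lt_mul_of_pos_right _ (by positivity)
        norm_num
    _ = 2 ^ 34 * P * ((a + b : ℕ) : ℝ) * b ^ 2 * L ^ 7 := by ring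

end Pool.Agent.RG
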