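import Pool.Agent.Work.MP_71c844_lc.RG.Defs
import Pool.Agent.Work.MP_71c844_lc.RecDich

/-!
Statements of the block RG (real gates): CLIQUE needs many patterns even if the monotone gates are
arbitrary nondecreasing functions of two real numbers.

Conventions. `E` is the finite set of the edges, `Tn δ L φ x` the expectation of `φ` after `L`
sprinkling steps from `x`, `miss 𝒱 y` is `0` if some member of `𝒱` is contained in `y` and `1`
otherwise, `lowSets E b` are the sets with at most `2 b` elements, `Closed δ L b ε 𝒱` says that `𝒱`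
contains every `K` with at most `2 b` elements with `Tn δ L (fun y => miss 𝒱 (y ∪ K)) ∅ ≤ ε`.
-/

namespace Pool.Agent.RG

open Finset
open Pool.Agent.NegLim (Tn miss Closed lowSets minMembers trim Dich)
open Pool.Agent.Rec82 (Sun)
open Pool.Agent.LayCirc (inp)

section defs

variable {E : Type} [Fintype E] [DecidableEq E]

/-- The smallest closed family containing `𝒰` (closed families are closed under intersection). -/
noncomputable def cl (δ : ℝ) (L b : ℕ) (ε : ℝ) (𝒰 : Finset (Finset E)) : Finset (Finset E) := by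
  classical exact (lowSets E b).filter (fun K => ∀ 𝒱 : Finset (Finset E), 𝒰 ⊆ 𝒱 →
    𝒱 ⊆ lowSets E b → Closed δ L b ε 𝒱 → K ∈ 𝒱)

/-- The minimal members of size `i` of the link of `S` in `𝒱`. -/
noncomputable def link (𝒱 : Finset (Finset E)) (S : Finset E) (i : ℕ) : Finset (Finset E) := by
  classical exact univ.filter (fun C => C.card = i ∧ Disjoint C S ∧ S ∪ C ∈ 𝒱 ∧
    ∀ C' : Finset E, C' ⊂ C → S ∪ C' ∉ 𝒱)

/-- The sets of size `j` which are minimal members of some family belonging to `𝒞`. -/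
noncomputable def chainMin (𝒞 : Finset (Finset (Finset E))) (j : ℕ) : Finset (Finset E) := by
  classical exact univ.filter (fun A => A.card = j ∧ ∃ 𝒱 ∈ 𝒞, A ∈ 𝒱 ∧
    ∀ A' : Finset E, A' ⊂ A → A' ∉ 𝒱)

/-- Programs with `s` instructions: instruction number `i` is a constant, a variable, or a
nondecreasing real function of two earlier instructions. -/
def Prog (s : ℕ) (F : ℕ → Finset E → ℝ) : Prop :=
  ∀ i < s, (∃ r : ℝ, ∀ z, F i z = r) ∨ (∃ e : E, ∀ z, F i z = if e ∈ z then 1 else 0) ∨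
    ∃ φ : ℝ → ℝ → ℝ, (∀ a b c d, a ≤ b → c ≤ d → φ a c ≤ φ b d) ∧
      ∃ j < i, ∃ k < i, ∀ z, F i z = φ (F j z) (F k z)

/-- The hypotheses on the parameters at one scale. -/
structure Scale (E : Type) [Fintype E] [DecidableEq E] (U : Type) [Fintype U]
    (δ : ℝ) (L b : ℕ) (B q ε : ℝ) (Y : U → Finset E) : Prop where
  h0 : 0 ≤ δ
  h1 : δ ≤ 1
  hB : 0 < B
  hq : 0 < q
  hBq : 2 * B / q ≤ 1 / 2
  hb : 1 ≤ b
  hε : 0 ≤ ε
  sun : Sun E δ L b B ε
  hY : ∀ A : Finset E, A.card ≤ 2 * b → (by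
    classical exact
      ((univ.filter (fun u => A ⊆ Y u)).card : ℝ) ≤ Fintype.card U * (1 / q) ^ A.card)

end defs

/-! ## Part A: approximation -/

/-- [RG Cl] The closure operator. `K ∈ cl 𝒰` iff `K` is a low set belonging to every closed family
`𝒱 ⊆ lowSets` containing `𝒰`. It is closed: if `Tn (miss (cl 𝒰) (y ∪ K)) ≤ ε`, then for every such
`𝒱`, `cl 𝒰 ⊆ 𝒱`, so `miss 𝒱 ≤ miss (cl 𝒰)` (`NegLim.miss_mono`), hence `Tn (miss 𝒱 (y ∪ K)) ≤ ε`
(`Tn_mono`), hence `K ∈ 𝒱`. The error: take `𝒱` from `NegLim.exists_closed`; `cl 𝒰 ⊆ 𝒱`, hence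
`miss 𝒰 - miss (cl 𝒰) ≤ miss 𝒰 - miss 𝒱` pointwise. Monotone: clear. -/
def StCl : Prop :=
  ∀ (E : Type) [Fintype E] [DecidableEq E] (δ : ℝ) (L b : ℕ) (ε : ℝ), 0 ≤ δ → δ ≤ 1 → 0 ≤ ε →
    ∀ 𝒰 : Finset (Finset E), 𝒰 ⊆ lowSets E b →
      𝒰 ⊆ cl δ L b ε 𝒰 ∧ cl δ L b ε 𝒰 ⊆ lowSets E b ∧ Closed δ L b ε (cl δ L b ε 𝒰) ∧
      Tn δ L (fun y => miss 𝒰 y - miss (cl δ L b ε 𝒰) y) ∅ ≤ (lowSets E b).card * ε ∧
      ∀ 𝒰' : Finset (Finset E), 𝒰' ⊆ lowSets E b → 𝒰 ⊆ 𝒰' → cl δ L b ε 𝒰 ⊆ cl δ L b ε 𝒰'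

/-- [RG Lk] Links of closed families have few minimal members. Model:
`Rec82.card_minMembers_le` (RecApprox.lean). If there were more than `B ^ i`, then `Sun` (applied to
`F = link 𝒱 S i`, `i ≤ 2 b`) gives `K ⊂ C` for some `C ∈ F` with `Tn (miss F (y ∪ K)) ∅ ≤ ε`. If
`C' ∈ F` and `C' ⊆ y ∪ K` then `S ∪ C' ∈ 𝒱` and `S ∪ C' ⊆ y ∪ (S ∪ K)`; so
`miss 𝒱 (y ∪ (S ∪ K)) ≤ miss F (y ∪ K)`, and `(S ∪ K).card ≤ S.card + i ≤ 2 b`. As `𝒱` is closed,
`S ∪ K ∈ 𝒱`, contradicting the minimality of `C`. -/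
def StLk : Prop :=
  ∀ (E : Type) [Fintype E] [DecidableEq E] (δ : ℝ) (L b : ℕ) (B ε : ℝ), 0 ≤ δ → δ ≤ 1 →
    Sun E δ L b B ε → ∀ 𝒱 : Finset (Finset E), Closed δ L b ε 𝒱 →
      ∀ (S : Finset E) (i : ℕ), S.card + i ≤ 2 * b → ((link 𝒱 S i).card : ℝ) ≤ B ^ i

/-- [RG Ch] A chain of families all of whose links have few minimal members has altogether few
minimal members of each size. Prove, by strong induction on `t`: for every `S` with
`S.card + t ≤ 2 b`, the number of `A ∈ chainMin 𝒞 (S.card + t)` with `S ⊆ A` is at most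
`(2 * B) ^ t`. For `t = 0` only `A = S`. Let `t > 0`. If `A` is such a set, a minimal member of
`𝒱_A ∈ 𝒞`, then `S ∉ 𝒱_A` as `S ⊂ A`. So (if there is any `A`) the set of the members of `𝒞` not
containing `S` is nonempty; let `𝒱` be its largest element (it is a finite chain: take one of
maximal cardinality). Then `A ∈ 𝒱_A ⊆ 𝒱`, so there is a minimal `C ⊆ A \ S` with `S ∪ C ∈ 𝒱`; `C` is
nonempty as `S ∉ 𝒱`, and `C ∈ link 𝒱 S i`, `i = C.card`, `1 ≤ i ≤ t`, `S ∪ C ⊆ A`,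
`(S ∪ C).card = S.card + i`. So the number is at most
`∑ i ∈ Icc 1 t, (link 𝒱 S i).card * (2 * B) ^ (t - i) ≤ ∑ i ∈ Icc 1 t, B ^ i * (2 * B) ^ (t - i)
= (2 * B) ^ t * ∑ i ∈ Icc 1 t, (1 / 2) ^ i ≤ (2 * B) ^ t`. The statement is the case `S = ∅`. -/
def StCh : Prop :=
  ∀ (E : Type) [Fintype E] [DecidableEq E] (𝒞 : Finset (Finset (Finset E))),
    (∀ 𝒱 ∈ 𝒞, ∀ 𝒲 ∈ 𝒞, 𝒱 ⊆ 𝒲 ∨ 𝒲 ⊆ 𝒱) → ∀ (b : ℕ) (B : ℝ), 0 < B →
    (∀ 𝒱 ∈ 𝒞, ∀ (S : Finset E) (i : ℕ), S.card + i ≤ 2 * b →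
      ((link 𝒱 S i).card : ℝ) ≤ B ^ i) →
    ∀ j ≤ 2 * b, ((chainMin 𝒞 j).card : ℝ) ≤ (2 * B) ^ j

open Classical in
/-- [RG Pl] Few planted sets contain one of few sets. Model: `Rec82.planted_count` (RecApprox.lean),
copy it with `M j` in place of `minMembers 𝒱 j` and `D` in place of `B`. -/
def StPl : Prop :=
  ∀ (E : Type) [Fintype E] [DecidableEq E] (U : Type) [Fintype U] (b : ℕ) (D q : ℝ), 0 < D →
    0 < q → D / q ≤ 1 / 2 → ∀ (Y : U → Finset E),
    (∀ A : Finset E, A.card ≤ 2 * b →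
      ((univ.filter (fun u => A ⊆ Y u)).card : ℝ) ≤ Fintype.card U * (1 / q) ^ A.card) →
    ∀ M : ℕ → Finset (Finset E), (∀ j, ∀ A ∈ M j, A.card = j) →
    (∀ j ≤ 2 * b, ((M j).card : ℝ) ≤ D ^ j) → ∀ j₀ : ℕ,
    ((univ.filter (fun u => ∃ j, j₀ ≤ j ∧ j ≤ 2 * b ∧ ∃ A ∈ M j, A ⊆ Y u)).card : ℝ) ≤
      Fintype.card U * (2 * (D / q) ^ j₀)

/-- [RG St] One approximation step; prove `StCl → StLk → StCh → StPl → StSt`. The families `𝒰 r` (decreasing in `r`) are replaced by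
`𝒢 r = trim b (cl (𝒰 r))`. Models: `Rec82.trim_count` and `Rec82.approx_step` (RecApprox.lean).
`P` is the set of the `u` such that, for some `r`, `Y u` contains a member of `cl (𝒰 r)` but none of
`trim b (cl (𝒰 r))`: then it contains a minimal member of `cl (𝒰 r)` of size `≥ b + 1`, i.e. an
element of `chainMin 𝒞 j`, `b + 1 ≤ j ≤ 2 b`, where `𝒞` is the image of the finite set
`{𝒰 r}` under `cl` (a chain, by the monotonicity in `StCl`); now `StPl` with `D = 2 B`, `StCh`,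
`StLk`. `Z z = ∑ 𝒰' ∈ image 𝒰, (miss 𝒰' z - miss (cl 𝒰') z)`, a sum with at most
`(lowSets E b).card + 1` summands (a chain of subsets of `lowSets E b`: the cardinalities are
different), each nonnegative and with expectation `≤ (lowSets E b).card * ε` (`StCl`, `Tn_sum`). -/
def StSt : Prop :=
  ∀ (E : Type) [Fintype E] [DecidableEq E] (U : Type) [Fintype U] (δ : ℝ) (L b : ℕ) (B q ε : ℝ)
    (Y : U → Finset E), Scale E U δ L b B q ε Y →
    ∀ 𝒰 : ℝ → Finset (Finset E), (∀ r r', r ≤ r' → 𝒰 r' ⊆ 𝒰 r) → (∀ r, 𝒰 r ⊆ lowSets E b) →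
    ∃ (𝒢 : ℝ → Finset (Finset E)) (P : Finset U) (Z : Finset E → ℝ),
      (∀ r, ∀ A ∈ 𝒢 r, A.card ≤ b) ∧
      (P.card : ℝ) ≤ Fintype.card U * (2 * (2 * B / q) ^ (b + 1)) ∧
      (∀ z, 0 ≤ Z z) ∧
      Tn δ L Z ∅ ≤ ((lowSets E b).card + 1) * ((lowSets E b).card * ε) ∧
      (∀ u ∉ P, ∀ r, (∃ A ∈ 𝒰 r, A ⊆ Y u) → ∃ A ∈ 𝒢 r, A ⊆ Y u) ∧
      (∀ z r, (∃ A ∈ 𝒢 r, A ⊆ z) → (¬ ∃ A ∈ 𝒰 r, A ⊆ z) → 1 ≤ Z z)

/-- [RG Ap] Approximators for all instructions of a program; prove `StSt → StAp`. Model: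
`Rec82.approx` (RecApprox.lean), induction on `s`. A constant `r₀`: `G i r = {∅}` if `r ≤ r₀`, else
`∅`. A variable `e`: `{∅}` if `r ≤ 0`, else `{{e}}` if `r ≤ 1`, else `∅`. A function `φ` of the
instructions `j`, `k`: apply `StSt` to `𝒰 r = {A₁ ∪ A₂ | A₁ ∈ G j s, A₂ ∈ G k t, r ≤ φ s t}`
(`s`, `t` arbitrary reals; sets of size `≤ 2 b`; decreasing in `r`). If
`r ≤ F i (Y u) = φ (F j (Y u)) (F k (Y u))`, take `s = F j (Y u)`, `t = F k (Y u)`. If
`A₁ ∪ A₂ ⊆ z` and `F i z < r ≤ φ s t`, then `F j z < s` or `F k z < t` (`φ` nondecreasing), hence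
`1 ≤ Z z` by induction. -/
def StAp : Prop :=
  ∀ (E : Type) [Fintype E] [DecidableEq E] (U : Type) [Fintype U] (δ : ℝ) (L b : ℕ) (B q ε : ℝ)
    (Y : U → Finset E), Scale E U δ L b B q ε Y →
    ∀ (s : ℕ) (F : ℕ → Finset E → ℝ), Prog s F →
    ∃ (G : ℕ → ℝ → Finset (Finset E)) (P : Finset U) (Z : Finset E → ℝ),
      (∀ i < s, ∀ r, ∀ A ∈ G i r, A.card ≤ b) ∧
      (P.card : ℝ) ≤ s * (Fintype.card U * (2 * (2 * B / q) ^ (b + 1))) ∧
      (∀ z, 0 ≤ Z z) ∧
      Tn δ L Z ∅ ≤ s * (((lowSets E b).card + 1) * ((lowSets E b).card * ε)) ∧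
      (∀ u ∉ P, ∀ i < s, ∀ r, r ≤ F i (Y u) → ∃ A ∈ G i r, A ⊆ Y u) ∧
      (∀ z, ∀ i < s, ∀ r, (∃ A ∈ G i r, A ⊆ z) → F i z < r → 1 ≤ Z z)

open Classical in
/-- [RG Dc] The dichotomy at one scale; prove `StAp → StDc`. Model: `Rec82.dichotomy`
(RecApprox.lean), with `G i r` in place of `G j` (`Rec82.planted_count` with `j₀ = 1` and the single
closed family of `NegLim.exists_closed` containing `G i r`; note `B / q ≤ 1 / 2`). -/
def StDc : Prop :=
  ∀ (E : Type) [Fintype E] [DecidableEq E] (U : Type) [Fintype U] (δ : ℝ) (L b : ℕ) (B q ε : ℝ)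
    (Y : U → Finset E), Scale E U δ L b B q ε Y →
    ∀ (s : ℕ) (F : ℕ → Finset E → ℝ), Prog s F → ∀ i < s, ∀ r : ℝ,
    Tn δ L (fun y => if r ≤ F i y then (0 : ℝ) else 1) ∅ ≤
        (s + 1) * (((lowSets E b).card + 1) * ((lowSets E b).card * ε)) ∨
    ((univ.filter (fun u => r ≤ F i (Y u))).card : ℝ) ≤
        Fintype.card U * (2 * (B / q) + s * (2 * (2 * B / q) ^ (b + 1)))

open Classical in
/-- [RG Dp] The dichotomy at all scales; prove `StDc → StDp`. Model: `Rec82.dich_circuit`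
(RecDich.lean), with the same `B k = 32 * 2 ^ K / 2 ^ k` and `Rec82.sunflower`. Here
`2 * B k / q ≤ 1 / 2` by `hq`, `(2 B / q) ^ (b + 1) ≤ (1 / 2) ^ b * (2 B / q)`, and
`S * (1 / 2) ^ b ≤ 1`, so the second alternative is `≤ 6 * (B k / q) = 4 * (8 * 6 * 2 ^ K / 2 ^ k / q)`.
Use `NegLim.Tn_translate'` for the state `x`. -/
def StDp : Prop :=
  ∀ (E : Type) [Fintype E] [DecidableEq E] (U : Type) [Fintype U] [Nonempty U]
    (b ℓ K R : ℕ) (q : ℝ) (Y : U → Finset E), 1 ≤ b → 2 * b < 2 ^ ℓ → 128 * 2 ^ K ≤ q →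
    (∀ A : Finset E, A.card ≤ 2 * b →
      ((univ.filter (fun u => A ⊆ Y u)).card : ℝ) ≤ Fintype.card U * (1 / q) ^ A.card) →
    ∀ (S : ℕ) (G : Finset E → Bool), S ≤ 2 ^ b → (∀ x y, x ⊆ y → G x = true → G y = true) →
    (∀ x : Finset E, ∃ F : ℕ → Finset E → ℝ, Prog S F ∧ ∃ i < S, ∀ z : Finset E,
      1 ≤ F i z ↔ G (x ∪ z) = true) →
    Dich K (ℓ * R) 6 q
      ((S + 1) * (((lowSets E b).card + 1) * ((lowSets E b).card * (1 / 2) ^ R))) Y G

/-! ## Part B: the frozen circuit -/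

section frozen

variable {ι : Type} {s : ℕ}

/-- The value of gate number `i` if every arbitrary gate is replaced by the value it has when its
inputs have the values `h`. -/
noncomputable def fval (c : Circuit ι s) (h : Fin s → ℝ) (x : ι → Bool) (i : Fin s) : ℝ :=
  match c i with
  | .var e => if x e then 1 else 0
  | .const r => r
  | .mon φ _ j k => φ (fval c h x ⟨j.1, j.2.trans i.2⟩) (fval c h x ⟨k.1, k.2.trans i.2⟩)
  | .arb _ a f => f fun l => h ⟨(a l).1, (a l).2.trans i.2⟩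
termination_by i.1
decreasing_by
  · exact j.2
  · exact k.2

open Classical in
/-- The values of the gates read by arbitrary gates, extended by `0`. -/
noncomputable def pat (c : Circuit ι s) (x : ι → Bool) : Fin s → ℝ :=
  fun j => if Fed c j then val c x j else 0

open Classical in
/-- The query: in the circuit frozen at the pattern `h`, some gate read by arbitrary gates has a
larger value than in `h`, or the output is positive. -/
noncomputable def qry (c : Circuit ι s) (o : Fin s) (h : Fin s → ℝ) (x : ι → Bool) : Bool :=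
  decide (0 < fval c h x o ∨ ∃ j, Fed c j ∧ h j < fval c h x j)

end frozen

/-- [RG Mo] The frozen circuit is nondecreasing. -/
def StMo : Prop :=
  ∀ (ι : Type) (s : ℕ) (c : Circuit ι s) (h : Fin s → ℝ) (x x' : ι → Bool), x ≤ x' →
    ∀ i, fval c h x i ≤ fval c h x' i

/-- [RG Fz] The frozen circuit computes the right values as long as the pattern is right. Model:
`LayCirc.frozen_eq` (LayPattern.lean); here a strong induction on `j.1`. -/
def StFz : Prop :=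
  ∀ (ι : Type) (s : ℕ) (c : Circuit ι s) (h : Fin s → ℝ) (x : ι → Bool) (n : ℕ),
    (∀ j : Fin s, j.1 < n → Fed c j → h j = val c x j) →
    ∀ j : Fin s, j.1 ≤ n → fval c h x j = val c x j

/-- [RG Pc] The query separates; prove `StMo → StFz → StPc`. Model: `LayCirc.pat_cover`
(LayPattern.lean). (1) At `x` itself `fval c (pat c x) x = val c x` (StFz). (2) Let `x ≤ x'` and
`0 < val c x' o`. If all gates read by arbitrary gates have the same values on `x` and `x'`, then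
`fval c (pat c x) x' o = val c x' o > 0` (StFz). Otherwise let `n` be the first such gate with
different values; then `fval c (pat c x) x' n = val c x' n ≠ val c x n = fval c (pat c x) x n` and
`≥` by StMo, so `pat c x n < fval c (pat c x) x' n`. -/
def StPc : Prop :=
  ∀ (ι : Type) (s : ℕ) (c : Circuit ι s) (o : Fin s) (x : ι → Bool),
    (qry c o (pat c x) x = true ↔ 0 < val c x o) ∧
    ∀ x' : ι → Bool, x ≤ x' → 0 < val c x' o → qry c o (pat c x) x' = true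

/-- [RG Qp] The query is a program with `2 s + 1` instructions. The instructions `i < s` are
`F i z = fval c h (inp π (x ∪ z)) i` (a variable `e` with `π e = inl b` is a constant; with
`π e = inr e'` it is the constant `1` if `e' ∈ x` and the variable `e'` otherwise; arbitrary gates
are constants). Instruction `s` is `if 0 < F o z then 1 else 0`, a nondecreasing function of
instruction `o` (take `φ a c = if 0 < a then 1 else 0`); for `i < s` instruction `s + 1 + i` is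
`φ (F (s + i) z) (F i z)` with `φ a c = if Fed c i ∧ h i < c then max a 1 else a`. So `F (2 s)` is
`1` if the query is true and `0` otherwise. -/
def StQp : Prop :=
  ∀ (E : Type) [Fintype E] [DecidableEq E] (ι : Type) (s : ℕ) (c : Circuit ι s) (o : Fin s)
    (h : Fin s → ℝ) (π : ι → Bool ⊕ E) (x : Finset E),
    ∃ F : ℕ → Finset E → ℝ, Prog (2 * s + 1) F ∧
      ∀ z, F (2 * s) z = if qry c o h (inp π (x ∪ z)) = true then 1 else 0

open Classical in
/-- [RG Qd] The queries satisfy the dichotomy; prove `StDp → StMo → StQp → StQd`. -/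
def StQd : Prop :=
  ∀ (E : Type) [Fintype E] [DecidableEq E] (U : Type) [Fintype U] [Nonempty U]
    (b ℓ K R : ℕ) (q : ℝ) (Y : U → Finset E), 1 ≤ b → 2 * b < 2 ^ ℓ → 128 * 2 ^ K ≤ q →
    (∀ A : Finset E, A.card ≤ 2 * b →
      ((univ.filter (fun u => A ⊆ Y u)).card : ℝ) ≤ Fintype.card U * (1 / q) ^ A.card) →
    ∀ (ι : Type) (s : ℕ) (c : Circuit ι s) (o : Fin s) (h : Fin s → ℝ) (π : ι → Bool ⊕ E),
    2 * s + 1 ≤ 2 ^ b →
    Dich K (ℓ * R) 6 q
      (((2 * s + 1 : ℕ) + 1) * (((lowSets E b).card + 1) * ((lowSets E b).card * (1 / 2) ^ R))) Y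
      (fun X => qry c o h (inp π X))

end Pool.Agent.RG
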